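import Mathlib
import Pool.Agent.Lib.MP_eebbd0_lc.BMain

/-!
The uniformity number of the ideal of null sets is one and the same cardinal for all Hausdorff
measures `H^r` on `ℝ^n` with `0 < r < n`, and for all gauge measures `H^f` on `ℝ^n` whose gauge
function lies in a band reaching from dimension zero to dimension `n`.
-/

namespace Pool.Agent.Results.MP_eebbd0_lc.NonBand

open MeasureTheory Filter Topology
open scoped ENNReal

theorem result : ∃ κ : Cardinal.{0}, ∀ (n : ℕ) (μ : Measure (EuclideanSpace ℝ (Fin n))),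
    ((∃ r : ℝ, 0 < r ∧ r < n ∧ μ = Measure.hausdorffMeasure r) ∨
      ∃ (f : ℝ≥0∞ → ℝ≥0∞) (k m : ℕ) (ε : ℝ), 0 < n ∧ 0 < ε ∧ f 0 = 0 ∧
        (∀ᶠ t : ℝ in 𝓝[>] 0,
          ENNReal.ofReal (t ^ n * Real.log^[k] (1 / t)) ≤ f (ENNReal.ofReal t)) ∧
        (∀ᶠ t : ℝ in 𝓝[>] 0, f (ENNReal.ofReal t) ≤
          ENNReal.ofReal (Real.exp (-Real.exp^[m] (Real.log^[m + 1] (1 / t) ^ ε)))) ∧
        μ = Measure.mkMetric f) →
    IsLeast {c : Cardinal.{0} | ∃ X : Set (EuclideanSpace ℝ (Fin n)),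
      μ X ≠ 0 ∧ Cardinal.mk X = c} κ := by
  obtain ⟨κ, hκ⟩ := Pool.Agent.Lib.MP_eebbd0_lc.Band.non_const
  refine ⟨κ, fun n μ h => hκ n μ ?_⟩
  rcases h with ⟨r, hr, hrn, rfl⟩ | h
  · exact Pool.Agent.Lib.MP_eebbd0_lc.Band.inBand_hausdorff hr hrn
  · exact h

end Pool.Agent.Results.MP_eebbd0_lc.NonBand
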